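import Mathlib
import Pool.Agent.V11199.RC.Asym
import Pool.Agent.V11199.RC.Frac

set_option linter.all false

namespace Pool.Agent.Results.MP_7f4d3c_lc.ScalarAutomorphisms

open Pool.Agent.V11199.RC Filter Topology

theorem result : ∀ (K : Type) [Field K] [Fintype K] (R : ℝ), 0 < R → R < 1 →
    Tendsto (fun n : ℕ =>
      (({C : Submodule K (Fin n → K) |
          Module.finrank K C = ⌊R * n⌋₊ ∧ OnlyScalars C}.ncard : ℕ) : ℝ) /
      (({C : Submodule K (Fin n → K) | Module.finrank K C = ⌊R * n⌋₊}.ncard : ℕ) : ℝ))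
      atTop (𝓝 1) := by
  intro K _ _ R hR0 hR1
  classical
  obtain ⟨m, l, hm, hl, hX⟩ := X_tendsto (Fintype.card K : ℝ)
    (by exact_mod_cast Fintype.one_lt_card (α := K)) R hR0 hR1
    (fun n w => ∑ v : Fin n → K, if wt v ≤ w then (1 : ℝ) else 0)
    (fun n w z h1 h2 => wt_count (K := K) (n := n) w z h1 h2)
  have key : ∀ ε : ℝ, 0 < ε → ∀ᶠ n : ℕ in atTop,
      0 < (({C : Submodule K (Fin n → K) | Module.finrank K C = ⌊R * n⌋₊}.ncard : ℕ) : ℝ) ∧
      (({C : Submodule K (Fin n → K) |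
        Module.finrank K C = ⌊R * n⌋₊ ∧ OnlyScalars C}.ncard : ℕ) : ℝ)
        ≤ (({C : Submodule K (Fin n → K) | Module.finrank K C = ⌊R * n⌋₊}.ncard : ℕ) : ℝ) ∧
      (({C : Submodule K (Fin n → K) | Module.finrank K C = ⌊R * n⌋₊}.ncard : ℕ) : ℝ)
        - (({C : Submodule K (Fin n → K) |
          Module.finrank K C = ⌊R * n⌋₊ ∧ OnlyScalars C}.ncard : ℕ) : ℝ)
        ≤ 2 * ε * (({C : Submodule K (Fin n → K) | Module.finrank K C = ⌊R * n⌋₊}.ncard : ℕ) : ℝ) := by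
    intro ε hε
    filter_upwards [hX ε hε, hl, eventually_ge_atTop 1] with n h1 h2 h3
    have hkn : ⌊R * (n : ℝ)⌋₊ < n := by
      rw [Nat.floor_lt (by positivity)]
      have : (0 : ℝ) < n := by exact_mod_cast h3
      nlinarith
    have hk : 4 * l n + (⌊R * (n : ℝ)⌋₊ - 4 * l n) = ⌊R * (n : ℝ)⌋₊ := by omega
    have := frac (K := K) (n := n) (4 * l n) (⌊R * (n : ℝ)⌋₊ - 4 * l n) (m n) (l n) (2 * l n)
      h2.1 (by omega) (hm n) (by omega) ε (by
        rw [hk]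
        exact h1.le) hε.le
    rw [hk] at this
    exact this
  refine tendsto_order.2 ⟨fun a ha => ?_, fun a ha => ?_⟩
  · filter_upwards [key ((1 - a) / 4) (by linarith)] with n hn
    obtain ⟨h1, h2, h3⟩ := hn
    rw [lt_div_iff₀ h1]
    nlinarith
  · filter_upwards [key 1 one_pos] with n hn
    obtain ⟨h1, h2, h3⟩ := hn
    rw [div_lt_iff₀ h1]
    nlinarith

end Pool.Agent.Results.MP_7f4d3c_lc.ScalarAutomorphisms
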